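import Pool.Agent.Helper74.HG.Goals

/-!
# Project HG, goal POLE: the poles of the zeta function under stabilisation
-/

set_option autoImplicit false

namespace Pool.Agent.Helper97.HG.POLE

open Polynomial Pool.Agent.Helper74.HG

/-- `Z` has no pole at `s`. -/
def Reg (s : ℂ) (Z : RatFunc ℂ) : Prop :=
  ∃ p q : Polynomial ℂ, q.eval s ≠ 0 ∧
    Z = algebraMap (Polynomial ℂ) (RatFunc ℂ) p / algebraMap (Polynomial ℂ) (RatFunc ℂ) q

theorem alg_ne {q : Polynomial ℂ} {s : ℂ} (h : q.eval s ≠ 0) :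
    algebraMap (Polynomial ℂ) (RatFunc ℂ) q ≠ 0 := by
  intro h0
  have h1 : q = 0 := by
    rw [← map_zero (algebraMap (Polynomial ℂ) (RatFunc ℂ))] at h0
    exact RatFunc.algebraMap_injective ℂ h0
  rw [h1, Polynomial.eval_zero] at h
  exact h rfl

theorem reg_iff (s : ℂ) (Z : RatFunc ℂ) : Reg s Z ↔ ¬ Z.denom.IsRoot s := by
  constructor
  · rintro ⟨p, q, hq, hZ⟩ hr
    have hq0 : q ≠ 0 := by
      rintro rfl
      simp at hq
    have h1 : Z.denom ∣ q := (RatFunc.denom_dvd hq0).2 ⟨p, hZ⟩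
    exact hq (hr.dvd h1)
  · intro h
    exact ⟨Z.num, Z.denom, h, (RatFunc.num_div_denom Z).symm⟩

theorem reg_mul {s : ℂ} {Z W : RatFunc ℂ} (hZ : Reg s Z) (hW : Reg s W) : Reg s (Z * W) := by
  obtain ⟨p, q, hq, rfl⟩ := hZ
  obtain ⟨p', q', hq', rfl⟩ := hW
  refine ⟨p * p', q * q', ?_, ?_⟩
  · rw [Polynomial.eval_mul]
    exact mul_ne_zero hq hq'
  · rw [map_mul, map_mul, div_mul_div_comm]

theorem reg_add {s : ℂ} {Z W : RatFunc ℂ} (hZ : Reg s Z) (hW : Reg s W) : Reg s (Z + W) := by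
  obtain ⟨p, q, hq, rfl⟩ := hZ
  obtain ⟨p', q', hq', rfl⟩ := hW
  refine ⟨p * q' + q * p', q * q', ?_, ?_⟩
  · rw [Polynomial.eval_mul]
    exact mul_ne_zero hq hq'
  · rw [map_mul, map_add, map_mul, map_mul, div_add_div _ _ (alg_ne hq) (alg_ne hq')]

theorem reg_neg {s : ℂ} {Z : RatFunc ℂ} (hZ : Reg s Z) : Reg s (-Z) := by
  obtain ⟨p, q, hq, rfl⟩ := hZ
  exact ⟨-p, q, hq, by rw [map_neg]; ring⟩

theorem reg_poly (s : ℂ) (p : Polynomial ℂ) :
    Reg s (algebraMap (Polynomial ℂ) (RatFunc ℂ) p) :=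
  ⟨p, 1, by simp, by rw [map_one, div_one]⟩

theorem reg_inv {s : ℂ} {q : Polynomial ℂ} (hq : q.eval s ≠ 0) :
    Reg s (algebraMap (Polynomial ℂ) (RatFunc ℂ) q)⁻¹ :=
  ⟨1, q, hq, by rw [map_one, one_div]⟩

theorem hphi : nonZeroDivisors (Polynomial ℂ) ≤
    (nonZeroDivisors (Polynomial ℂ)).comap (Polynomial.compRingHom (Polynomial.X + 1)) := by
  intro p hp
  have h0 : p ≠ 0 := nonZeroDivisors.ne_zero hp
  refine Submonoid.mem_comap.2 (mem_nonZeroDivisors_of_ne_zero ?_)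
  rw [Polynomial.coe_compRingHom_apply]
  intro h
  rw [show (Polynomial.X + 1 : Polynomial ℂ) = Polynomial.X + Polynomial.C 1 by simp] at h
  exact h0 (Polynomial.comp_X_add_C_eq_zero_iff.1 h)

theorem shR_poly (p : Polynomial ℂ) : shR (algebraMap (Polynomial ℂ) (RatFunc ℂ) p) =
    algebraMap (Polynomial ℂ) (RatFunc ℂ) (p.comp (Polynomial.X + 1)) := by
  have h1 : algebraMap (Polynomial ℂ) (RatFunc ℂ) p =
      algebraMap (Polynomial ℂ) (RatFunc ℂ) p / algebraMap (Polynomial ℂ) (RatFunc ℂ) 1 := by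
    rw [map_one, div_one]
  have h2 : algebraMap (Polynomial ℂ) (RatFunc ℂ) (p.comp (Polynomial.X + 1)) =
      algebraMap (Polynomial ℂ) (RatFunc ℂ) (Polynomial.compRingHom (Polynomial.X + 1) p) /
        algebraMap (Polynomial ℂ) (RatFunc ℂ) (Polynomial.compRingHom (Polynomial.X + 1) 1) := by
    rw [map_one, map_one, div_one]
    rfl
  rw [h1, h2]
  exact RatFunc.map_apply_div (Polynomial.compRingHom (Polynomial.X + 1)) hphi p 1

theorem shR_reg (s : ℂ) (Z : RatFunc ℂ) : Reg s Z ↔ Reg (s - 1) (shR Z) := by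
  constructor
  · rintro ⟨p, q, hq, rfl⟩
    refine ⟨p.comp (Polynomial.X + 1), q.comp (Polynomial.X + 1), ?_, ?_⟩
    · rw [Polynomial.eval_comp, Polynomial.eval_add, Polynomial.eval_X, Polynomial.eval_one,
        sub_add_cancel]
      exact hq
    · rw [map_div₀, shR_poly, shR_poly]
  · rintro ⟨p, q, hq, h⟩
    refine ⟨p.comp (Polynomial.X - 1), q.comp (Polynomial.X - 1), ?_, ?_⟩
    · rw [Polynomial.eval_comp, Polynomial.eval_sub, Polynomial.eval_X, Polynomial.eval_one]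
      exact hq
    · apply shR.injective
      rw [map_div₀, shR_poly, shR_poly, h, Polynomial.comp_assoc, Polynomial.comp_assoc]
      have h1 : (Polynomial.X - 1 : Polynomial ℂ).comp (Polynomial.X + 1) = Polynomial.X := by
        simp
      rw [h1, Polynomial.comp_X, Polynomial.comp_X]

theorem t : POLE := by
  intro Z s₀ hs
  rw [← not_iff_not, ← reg_iff, ← reg_iff, shR_reg]
  set s := s₀ - 1 with hsd
  have h0 : s + 1 ≠ 0 := by
    have := hs 0
    rw [hsd]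
    simpa using this
  have h1 : s ≠ 0 := by
    have := hs 1
    rw [hsd]
    intro h
    exact this (by push_cast; linear_combination h)
  have h2 : s + 2 ≠ 0 := by
    have := hs (-1)
    intro h
    exact this (by push_cast; linear_combination h - hsd)
  have e1 : (RatFunc.X + 1 : RatFunc ℂ) ^ 2 =
      algebraMap (Polynomial ℂ) (RatFunc ℂ) ((Polynomial.X + 1) ^ 2) := by
    rw [map_pow, map_add, map_one, RatFunc.algebraMap_X]
  have hv : ((Polynomial.X + 1) ^ 2 : Polynomial ℂ).eval s ≠ 0 := by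
    simp only [Polynomial.eval_pow, Polynomial.eval_add, Polynomial.eval_X, Polynomial.eval_one]
    exact pow_ne_zero 2 h0
  have hv2 : ((Polynomial.X + 1) ^ 2 - 1 : Polynomial ℂ).eval s ≠ 0 := by
    simp only [Polynomial.eval_pow, Polynomial.eval_add, Polynomial.eval_X, Polynomial.eval_one,
      Polynomial.eval_sub]
    have : (s + 1) ^ 2 - 1 = s * (s + 2) := by ring
    rw [this]
    exact mul_ne_zero h1 h2
  have ha : Reg s ((RatFunc.X + 1 : RatFunc ℂ) ^ 2)⁻¹ := by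
    rw [e1]
    exact reg_inv hv
  have hb : Reg s (1 - ((RatFunc.X + 1 : RatFunc ℂ) ^ 2)⁻¹) := by
    rw [sub_eq_add_neg]
    refine reg_add ?_ (reg_neg ha)
    simpa using reg_poly s 1
  have hc : (1 - ((RatFunc.X + 1 : RatFunc ℂ) ^ 2)⁻¹)⁻¹ =
      algebraMap (Polynomial ℂ) (RatFunc ℂ) ((Polynomial.X + 1) ^ 2) *
        (algebraMap (Polynomial ℂ) (RatFunc ℂ) ((Polynomial.X + 1) ^ 2 - 1))⁻¹ := by
    have n1 := alg_ne hv
    have n2 := alg_ne hv2
    rw [e1]
    rw [map_sub, map_one] at n2 ⊢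
    field_simp
  have hd : Reg s (1 - ((RatFunc.X + 1 : RatFunc ℂ) ^ 2)⁻¹)⁻¹ := by
    rw [hc]
    exact reg_mul (reg_poly s _) (reg_inv hv2)
  have hb0 : (1 - ((RatFunc.X + 1 : RatFunc ℂ) ^ 2)⁻¹) ≠ 0 := by
    intro h
    have h3 := alg_ne hv2
    apply h3
    rw [e1, sub_eq_zero] at h
    rw [map_sub, map_one, sub_eq_zero]
    rw [← inv_inv (algebraMap (Polynomial ℂ) (RatFunc ℂ) ((Polynomial.X + 1) ^ 2)), ← h, inv_one]
  unfold stabZ
  constructor
  · intro h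
    exact reg_add ha (reg_mul hb h)
  · intro h
    have h4 : shR Z = (1 - ((RatFunc.X + 1 : RatFunc ℂ) ^ 2)⁻¹)⁻¹ *
        ((((RatFunc.X + 1 : RatFunc ℂ) ^ 2)⁻¹ +
          (1 - ((RatFunc.X + 1 : RatFunc ℂ) ^ 2)⁻¹) * shR Z) +
          -((RatFunc.X + 1 : RatFunc ℂ) ^ 2)⁻¹) := by
      rw [add_neg_cancel_comm, inv_mul_cancel_left₀ hb0]
    rw [h4]
    exact reg_mul hd (reg_add h (reg_neg ha))

end Pool.Agent.Helper97.HG.POLE
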