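import Pool.Agent.Helper74.HG.GoalsG
import Pool.Agent.Helper97.HG.POLE

/-!
# Project HG, goal POLE2: the poles of the zeta function under stabilisation
-/

set_option autoImplicit false

namespace Pool.Agent.Helper97.HG.POLE2

open Polynomial Pool.Agent.Helper74.HG Pool.Agent.Helper97.HG.POLE

theorem t : Pool.Agent.Helper74.HG.POLE2 := by
  intro Z s₀ hz0 hz1 hz2
  rw [← not_iff_not, ← reg_iff, ← reg_iff, shR_reg]
  set s := s₀ - 1 with hsd
  have h0 : s + 1 ≠ 0 := by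
    rw [hsd, sub_add_cancel]
    exact hz0
  have h1 : s ≠ 0 := by
    rw [hsd]
    exact sub_ne_zero.2 hz1
  have h2 : s + 2 ≠ 0 := by
    intro h
    exact hz2 (by linear_combination h - hsd)
  have e1 : (RatFunc.X + 1 : RatFunc ℂ) ^ 2 =
      algebraMap (Polynomial ℂ) (RatFunc ℂ) ((Polynomial.X + 1) ^ 2) := by
    rw [map_pow, map_add, map_one, RatFunc.algebraMap_X]
  have hv : ((Polynomial.X + 1) ^ 2 : Polynomial ℂ).eval s ≠ 0 := by
    simp only [Polynomial.eval_pow, Polynomial.eval_add, Polynomial.eval_X, Polynomial.eval_one]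
    exact pow_ne_zero 2 h0
  have hv2 : ((Polynomial.X + 1) ^ 2 - 1 : Polynomial ℂ).eval s ≠ 0 := by
    simp only [Polynomial.eval_pow, Polynomial.eval_add, Polynomial.eval_X, Polynomial.eval_one,
      Polynomial.eval_sub]
    have : (s + 1) ^ 2 - 1 = s * (s + 2) := by ring
    rw [this]
    exact mul_ne_zero h1 h2
  have ha : Reg s ((RatFunc.X + 1 : RatFunc ℂ) ^ 2)⁻¹ := by
    rw [e1]
    exact reg_inv hv
  have hb : Reg s (1 - ((RatFunc.X + 1 : RatFunc ℂ) ^ 2)⁻¹) := by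
    rw [sub_eq_add_neg]
    refine reg_add ?_ (reg_neg ha)
    simpa using reg_poly s 1
  have hc : (1 - ((RatFunc.X + 1 : RatFunc ℂ) ^ 2)⁻¹)⁻¹ =
      algebraMap (Polynomial ℂ) (RatFunc ℂ) ((Polynomial.X + 1) ^ 2) *
        (algebraMap (Polynomial ℂ) (RatFunc ℂ) ((Polynomial.X + 1) ^ 2 - 1))⁻¹ := by
    have n1 := alg_ne hv
    have n2 := alg_ne hv2
    rw [e1]
    rw [map_sub, map_one] at n2 ⊢
    field_simp
  have hd : Reg s (1 - ((RatFunc.X + 1 : RatFunc ℂ) ^ 2)⁻¹)⁻¹ := by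
    rw [hc]
    exact reg_mul (reg_poly s _) (reg_inv hv2)
  have hb0 : (1 - ((RatFunc.X + 1 : RatFunc ℂ) ^ 2)⁻¹) ≠ 0 := by
    intro h
    have h3 := alg_ne hv2
    apply h3
    rw [e1, sub_eq_zero] at h
    rw [map_sub, map_one, sub_eq_zero]
    rw [← inv_inv (algebraMap (Polynomial ℂ) (RatFunc ℂ) ((Polynomial.X + 1) ^ 2)), ← h, inv_one]
  unfold stabZ
  constructor
  · intro h
    exact reg_add ha (reg_mul hb h)
  · intro h
    have h4 : shR Z = (1 - ((RatFunc.X + 1 : RatFunc ℂ) ^ 2)⁻¹)⁻¹ *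
        ((((RatFunc.X + 1 : RatFunc ℂ) ^ 2)⁻¹ +
          (1 - ((RatFunc.X + 1 : RatFunc ℂ) ^ 2)⁻¹) * shR Z) +
          -((RatFunc.X + 1 : RatFunc ℂ) ^ 2)⁻¹) := by
      rw [add_neg_cancel_comm, inv_mul_cancel_left₀ hb0]
    rw [h4]
    exact reg_mul hd (reg_add h (reg_neg ha))

end Pool.Agent.Helper97.HG.POLE2
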